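import Pool.Agent.Helper5.V.Shift

/-!
Closure of the coefficient condition under compositions.
-/

namespace Pool.Agent.Helper6

open MvPolynomial

/-- polynomials with coefficients in a subalgebra form a subalgebra -/
def coeffSub {σ R : Type*} [CommRing R] [Algebra ℚ R] (S : Subalgebra ℚ R) :
    Subalgebra ℚ (MvPolynomial σ R) where
  carrier := {f | ∀ m, coeff m f ∈ S}
  mul_mem' := by
    classical
    intro f g hf hg m
    rw [coeff_mul]
    exact Subalgebra.sum_mem _ fun x _ => Subalgebra.mul_mem _ (hf _) (hg _)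
  add_mem' := by
    intro f g hf hg m
    rw [coeff_add]
    exact Subalgebra.add_mem _ (hf _) (hg _)
  algebraMap_mem' := by
    classical
    intro c m
    have : (algebraMap ℚ (MvPolynomial σ R) c) = C (algebraMap ℚ R c) := rfl
    rw [this, coeff_C]
    split_ifs
    · exact Subalgebra.algebraMap_mem _ _
    · exact Subalgebra.zero_mem _

theorem mem_coeffSub {σ R : Type*} [CommRing R] [Algebra ℚ R] {S : Subalgebra ℚ R}
    {f : MvPolynomial σ R} : f ∈ coeffSub S ↔ ∀ m, coeff m f ∈ S := Iff.rfl

/-- **composition**: if the coefficients of the shifts of `q l` lie in a subalgebra then so do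
those of the shift of any polynomial in the `q l` -/
theorem coeff_shR_mem {n r : ℕ} {R : Type*} [CommRing R] [Algebra ℚ R] (β : Fin n → R)
    (J : Fin r → Fin n) {ι : Type*} (q : ι → MvPolynomial (Fin n) ℚ) (S : Subalgebra ℚ R)
    (h : ∀ l m, coeff m (VF.shR β J (q l)) ∈ S) {g : MvPolynomial (Fin n) ℚ}
    (hg : g ∈ Algebra.adjoin ℚ (Set.range q)) (m : Fin r →₀ ℕ) :
    coeff m (VF.shR β J g) ∈ S := by
  have h1 : g ∈ (coeffSub S).comap (VF.shR β J) := by
    refine (Algebra.adjoin_le (S := (coeffSub S).comap (VF.shR β J)) ?_) hg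
    rintro _ ⟨l, rfl⟩
    exact h l
  exact h1 m

end Pool.Agent.Helper6
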