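import Pool.Agent.Helper6.Fanin.Point
import Pool.Agent.Helper5.Gen

/-!
From generators to integer points, with a size independent of the multiplicities.
-/

namespace Pool.Agent.Helper6

open MvPolynomial

theorem totalDegree_aeval_le {σ τ : Type*} (P : σ → MvPolynomial τ ℚ) (E : ℕ)
    (hP : ∀ i, (P i).totalDegree ≤ E) (f : MvPolynomial σ ℚ) :
    (aeval P f).totalDegree ≤ f.totalDegree * E := by
  classical
  rw [aeval_def, eval₂_eq]
  refine (totalDegree_finsetSum _ _).trans ?_
  apply Finset.sup_le
  intro m hm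
  refine (totalDegree_mul _ _).trans ?_
  rw [algebraMap_eq, totalDegree_C, Nat.zero_add]
  refine (totalDegree_finsetProd _ _).trans ?_
  calc ∑ i ∈ m.support, (P i ^ m i).totalDegree ≤ ∑ i ∈ m.support, m i * E := by
        apply Finset.sum_le_sum
        intro i _
        refine (totalDegree_pow _ _).trans ?_
        exact Nat.mul_le_mul_left _ (hP i)
    _ = (m.sum fun _ a => a) * E := by rw [← Finset.sum_mul]; rfl
    _ ≤ f.totalDegree * E := Nat.mul_le_mul_right _ (le_totalDegree hm)

/-- **from generators to points**: a sum of `k` products of powers that does not vanish under a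
polynomial substitution of degree at most `E` is nonzero at the image of a point with natural
coordinates at most `2 ^ (k + 1) * (L * E) + k`, where `L` bounds the sum of the total degrees of
the factors -/
theorem exists_nat_seed {n k m L E : ℕ} {τ : Type*} [Fintype τ] (P : Fin n → MvPolynomial τ ℚ)
    (hP : ∀ v, (P v).totalDegree ≤ E) (κ : Fin k → ℚ) (g : Fin k → Fin m → MvPolynomial (Fin n) ℚ)
    (e : Fin k → Fin m → ℕ) (hL : ∑ i, ∑ j, (g i j).totalDegree ≤ L)
    (hf : aeval P (∑ i, C (κ i) * ∏ j, g i j ^ e i j) ≠ 0) :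
    ∃ s : τ → ℕ, (∀ i, s i ≤ 2 ^ (k + 1) * (L * E) + k) ∧
      eval (fun v => eval (fun i => (s i : ℚ)) (P v)) (∑ i, C (κ i) * ∏ j, g i j ^ e i j) ≠ 0 := by
  classical
  let ε : τ ≃ Fin (Fintype.card τ) := Fintype.equivFin τ
  let Q : Fin n → MvPolynomial (Fin (Fintype.card τ)) ℚ := fun v => rename ε (P v)
  have hQ : ∀ f : MvPolynomial (Fin n) ℚ, aeval Q f = rename ε (aeval P f) := by
    intro f
    have : (aeval Q : MvPolynomial (Fin n) ℚ →ₐ[ℚ] _) = (rename ε).comp (aeval P) := by
      apply MvPolynomial.algHom_ext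
      intro v
      simp [Q]
    rw [this]; rfl
  have hQd : ∀ v, (Q v).totalDegree ≤ E := fun v =>
    (totalDegree_rename_le _ _).trans (hP v)
  have hQf : aeval Q (∑ i, C (κ i) * ∏ j, g i j ^ e i j) ≠ 0 := by
    rw [hQ]
    intro h0
    apply hf
    apply rename_injective _ ε.injective
    rw [h0, map_zero]
  -- a nonzero point
  have hpt : ∃ x, eval x (aeval Q (∑ i, C (κ i) * ∏ j, g i j ^ e i j)) ≠ 0 := by
    by_contra hcon
    push Not at hcon
    exact hQf (MvPolynomial.funext fun x => by rw [hcon x, map_zero])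
  obtain ⟨x, hx⟩ := hpt
  have hform : aeval Q (∑ i, C (κ i) * ∏ j, g i j ^ e i j) =
      ∑ i, C (κ i) * ∏ j, (aeval Q (g i j)) ^ e i j := by
    rw [map_sum]
    apply Finset.sum_congr rfl
    intro i _
    rw [map_mul, map_prod, algHom_C, algebraMap_eq]
    congr 1
    exact Finset.prod_congr rfl fun j _ => map_pow _ _ _
  have hL' : ∑ i, ∑ j, (aeval Q (g i j)).totalDegree ≤ L * E := by
    calc ∑ i, ∑ j, (aeval Q (g i j)).totalDegree ≤ ∑ i, ∑ j, (g i j).totalDegree * E :=
          Finset.sum_le_sum fun i _ => Finset.sum_le_sum fun j _ =>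
            totalDegree_aeval_le Q E hQd _
      _ = (∑ i, ∑ j, (g i j).totalDegree) * E := by
          rw [Finset.sum_mul]
          exact Finset.sum_congr rfl fun i _ => by rw [Finset.sum_mul]
      _ ≤ L * E := Nat.mul_le_mul_right _ hL
  rw [hform] at hx
  obtain ⟨x', -, hx1, hx2⟩ := move_all κ (fun i j => aeval Q (g i j)) e hL'
    Finset.univ x hx
  have hx3 : ∀ v, ∃ z ∈ Finset.range (2 ^ (k + 1) * (L * E) + k + 1), x' v = (z : ℚ) :=
    fun v => hx1 v (Finset.mem_univ v)
  choose z hz hz' using hx3
  refine ⟨fun i => z (ε i), fun i => Nat.lt_succ_iff.1 (Finset.mem_range.1 (hz _)), ?_⟩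
  rw [← hform] at hx2
  have h5 : eval x' (aeval Q (∑ i, C (κ i) * ∏ j, g i j ^ e i j)) =
      eval (fun v => eval (fun i => ((z (ε i) : ℕ) : ℚ)) (P v))
        (∑ i, C (κ i) * ∏ j, g i j ^ e i j) := by
    have h6 : (eval x').comp (aeval Q : MvPolynomial (Fin n) ℚ →ₐ[ℚ] _).toRingHom =
        eval (fun v => eval (fun i => ((z (ε i) : ℕ) : ℚ)) (P v)) := by
      apply MvPolynomial.ringHom_ext
      · intro r
        simp
      · intro v
        simp only [Q, RingHom.comp_apply, AlgHom.toRingHom_eq_coe, RingHom.coe_coe, aeval_X,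
          eval_X, eval_rename]
        congr 1
        refine congrArg eval ?_
        funext i
        exact hz' (ε i)
    rw [← h6]; rfl
  rw [← h5]
  exact hx2

theorem totalDegree_genPoly (n c : ℕ) (i : Fin n) :
    (Pool.Agent.Helper5.genPoly n c i).totalDegree ≤ n := by
  classical
  unfold Pool.Agent.Helper5.genPoly
  refine (totalDegree_finsetSum _ _).trans ?_
  apply Finset.sup_le
  intro l _
  refine (totalDegree_mul _ _).trans ?_
  rw [totalDegree_X]
  have h1 : (∏ j ∈ Finset.univ.erase i, (X (Sum.inr l) -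
      C (j.val : ℚ)) : MvPolynomial (Fin c ⊕ Fin c) ℚ).totalDegree ≤ n - 1 := by
    refine (totalDegree_finsetProd _ _).trans ?_
    calc _ ≤ ∑ j ∈ (Finset.univ : Finset (Fin n)).erase i, 1 := by
          apply Finset.sum_le_sum
          intro j _
          refine (totalDegree_sub _ _).trans ?_
          rw [totalDegree_X, totalDegree_C]
          simp
      _ = n - 1 := by
          rw [Finset.sum_const, Finset.card_erase_of_mem (Finset.mem_univ _), Finset.card_univ,
            Fintype.card_fin]
          simp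
  have h2 : 0 < n := i.pos
  omega

end Pool.Agent.Helper6
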